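import Mathlib

/-!
# MP_f4bae3_lc, Q1: ordinal-indexed limits generate all `λ⁺`-Borel functions

Let `λ` be an uncountable regular cardinal with `2^{<λ} = λ` and let `X`, `Y` be subspaces of
`^λ λ` with the bounded topology.  The `λ⁺`-Borel measurable functions `X → Y` form exactly the
smallest class containing the continuous functions and closed under `κ`-limits for every regular
`κ ≤ λ`.
-/

set_option autoImplicit false

open Set Filter Topology Cardinal Ordinal Order

namespace Pool.Agent.Results.MP_f4bae3_lc.SequentialLimits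

/-- The set `^λ λ` of all functions from `λ` to `λ`, where `λ` is the set of the ordinals less
than (the initial ordinal of) `λ`. -/
def GB (lam : Cardinal.{0}) : Type 1 := Iio lam.ord → Iio lam.ord

variable {lam : Cardinal.{0}}

/-- The basic open set `N_s` for `s = x ↾ a`: all `y` which agree with `x` below `a < λ`. -/
def N (x : GB lam) (a : Iio lam.ord) : Set (GB lam) := {y | ∀ b < a, y b = x b}

/-- The bounded topology of `^λ λ`, generated by the sets `N_s` for `s ∈ ^{<λ} λ`. -/
instance : TopologicalSpace (GB lam) :=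
  TopologicalSpace.generateFrom {U | ∃ (x : GB lam) (a : Iio lam.ord), U = N x a}

/-- The `λ⁺`-Borel subsets of a topological space: the smallest family which contains the open sets
and is closed under complements and unions of `λ` many of its members. -/
inductive IsBorel (lam : Cardinal.{0}) {X : Type 1} [TopologicalSpace X] : Set X → Prop
  | ofOpen (U : Set X) : IsOpen U → IsBorel lam U
  | compl (A : Set X) : IsBorel lam A → IsBorel lam Aᶜ
  | iUnion (A : Iio lam.ord → Set X) : (∀ i, IsBorel lam (A i)) → IsBorel lam (⋃ i, A i)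

/-- The `λ⁺`-Borel measurable functions. -/
def BorelMeasurable (lam : Cardinal.{0}) {X Y : Type 1} [TopologicalSpace X] [TopologicalSpace Y]
    (f : X → Y) : Prop := ∀ U : Set Y, IsOpen U → IsBorel lam (f ⁻¹' U)

/-- The smallest class of functions `X → Y` which contains the continuous functions and is closed
under `κ`-limits (pointwise limits over the ordinal `κ`) for every regular `κ ≤ λ`. -/
inductive LimClass (lam : Cardinal.{0}) {X Y : Type 1} [TopologicalSpace X] [TopologicalSpace Y] :
    (X → Y) → Prop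
  | ofContinuous (f : X → Y) : Continuous f → LimClass lam f
  | lim (κ : Cardinal.{0}) (hκ : κ.IsRegular) (hle : κ ≤ lam) (F : Iio κ.ord → X → Y) (f : X → Y) :
      (∀ i, LimClass lam (F i)) → (∀ x, Tendsto (fun i => F i x) atTop (𝓝 (f x))) →
      LimClass lam f

/-! ### The bounded topology -/

theorem mem_N_self (x : GB lam) (a : Iio lam.ord) : x ∈ N x a := fun _ _ => rfl

theorem N_eq {x y : GB lam} {a : Iio lam.ord} (h : y ∈ N x a) : N y a = N x a := by
  ext z
  constructor
  · intro hz b hb
    rw [hz b hb, h b hb]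
  · intro hz b hb
    rw [hz b hb, h b hb]

theorem N_anti {x : GB lam} {a b : Iio lam.ord} (h : a ≤ b) : N x b ⊆ N x a :=
  fun _ hy c hc => hy c (hc.trans_le h)

theorem isOpen_N (x : GB lam) (a : Iio lam.ord) : IsOpen (N x a) :=
  TopologicalSpace.isOpen_generateFrom_of_mem ⟨x, a, rfl⟩

theorem isClosed_N (x : GB lam) (a : Iio lam.ord) : IsClosed (N x a) := by
  rw [← isOpen_compl_iff]
  have : (N x a)ᶜ = ⋃ y ∈ (N x a)ᶜ, N y a := by
    ext z
    simp only [mem_compl_iff, mem_iUnion]
    constructor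
    · intro hz
      exact ⟨z, hz, mem_N_self z a⟩
    · rintro ⟨y, hy, hz⟩ hzx
      apply hy
      intro b hb
      rw [← hz b hb, hzx b hb]
  rw [this]
  exact isOpen_biUnion fun y _ => isOpen_N y a

theorem basis (hpos : 0 < lam.ord) : TopologicalSpace.IsTopologicalBasis
    {U : Set (GB lam) | ∃ (x : GB lam) (a : Iio lam.ord), U = N x a} := by
  refine ⟨?_, ?_, rfl⟩
  · rintro U ⟨x, a, rfl⟩ V ⟨y, b, rfl⟩ z ⟨hz1, hz2⟩
    refine ⟨N z (max a b), ⟨z, _, rfl⟩, mem_N_self _ _, ?_⟩
    rw [← N_eq hz1, ← N_eq hz2]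
    exact subset_inter (N_anti (le_max_left _ _)) (N_anti (le_max_right _ _))
  · ext x
    simp only [mem_sUnion, mem_univ, iff_true]
    exact ⟨N x ⟨0, hpos⟩, ⟨x, _, rfl⟩, mem_N_self _ _⟩

theorem mk_Iio_lam : #(Iio lam.ord) = Cardinal.lift.{1} lam := by
  rw [Cardinal.mk_Iio_ordinal, card_ord]

theorem mk_Iio_le (a : Iio lam.ord) : #(Iio a) ≤ Cardinal.lift.{1} (a : Ordinal).card := by
  rw [← Cardinal.mk_Iio_ordinal]
  exact mk_le_of_injective (f := fun c : Iio a => (⟨(c : Iio lam.ord), c.2⟩ : Iio (a : Ordinal)))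
    (fun c d h => Subtype.ext (Subtype.ext (congrArg (fun z : Iio (a : Ordinal) => (z : Ordinal)) h)))

/-- There are at most `λ` basic open sets. -/
theorem card_basic (hreg : lam.IsRegular) (hunc : ℵ₀ < lam) (hpow : (2 : Cardinal) ^< lam = lam) :
    #{U : Set (GB lam) | ∃ (x : GB lam) (a : Iio lam.ord), U = N x a} ≤ #(Iio lam.ord) := by
  classical
  have hinf : ℵ₀ ≤ Cardinal.lift.{1} lam := by
    rw [aleph0_le_lift]; exact hreg.aleph0_le
  -- the codes: triples `a`, `b`, `s : Iio a → Iio b`
  let Code : Type 1 := Σ p : Iio lam.ord × Iio lam.ord, (Iio p.1 → Iio p.2)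
  let dec : Code → Set (GB lam) := fun c =>
    {y | ∀ (b : Iio lam.ord) (hb : b < c.1.1), y b = (c.2 ⟨b, hb⟩ : Iio lam.ord)}
  have hsub : {U : Set (GB lam) | ∃ (x : GB lam) (a : Iio lam.ord), U = N x a} ⊆ range dec := by
    rintro U ⟨x, a, rfl⟩
    -- `x ↾ a` is bounded
    have hb : ∃ b : Iio lam.ord, ∀ c < a, x c < b := by
      have h1 : (⨆ c : Iio a, (((x c : Iio lam.ord) : Ordinal) + 1)) < lam.ord := by
        apply Ordinal.lift_iSup_lt_of_lt_cof
        · rw [Cardinal.lift_id'.{0, 1}, ← Ordinal.lift_cof, hreg.cof_ord]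
          refine (mk_Iio_le a).trans_lt ?_
          rw [Cardinal.lift_lt]
          exact lt_ord.1 a.2
        · intro c
          exact (isSuccLimit_ord hreg.aleph0_le).add_one_lt (x c).2
      refine ⟨⟨_, h1⟩, fun c hc => ?_⟩
      show ((x c : Iio lam.ord) : Ordinal) < _
      have : ((x c : Iio lam.ord) : Ordinal) + 1 ≤
          ⨆ c : Iio a, (((x c : Iio lam.ord) : Ordinal) + 1) :=
        Ordinal.le_iSup (fun c : Iio a => ((x c : Iio lam.ord) : Ordinal) + 1) ⟨c, hc⟩
      exact (Order.lt_add_one_iff.2 le_rfl).trans_le this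
    obtain ⟨b, hb⟩ := hb
    refine ⟨⟨(a, b), fun c => ⟨x c, hb c c.2⟩⟩, ?_⟩
    rfl
  refine (mk_le_mk_of_subset hsub).trans (mk_range_le.trans ?_)
  rw [mk_sigma]
  have hfib : ∀ p : Iio lam.ord × Iio lam.ord, #(Iio p.1 → Iio p.2) ≤ Cardinal.lift.{1} lam := by
    rintro ⟨a, b⟩
    set c : Cardinal := max (max (a : Ordinal).card (b : Ordinal).card) ℵ₀ with hc
    have hclt : c < lam := max_lt (max_lt (lt_ord.1 a.2) (lt_ord.1 b.2)) hunc
    have ha : #(Iio a) ≤ Cardinal.lift.{1} c :=
      (mk_Iio_le a).trans (Cardinal.lift_le.2 ((le_max_left _ _).trans (le_max_left _ _)))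
    have hb : #(Iio b) ≤ Cardinal.lift.{1} c :=
      (mk_Iio_le b).trans (Cardinal.lift_le.2 ((le_max_right _ _).trans (le_max_left _ _)))
    have hcinf : ℵ₀ ≤ Cardinal.lift.{1} c := by
      rw [aleph0_le_lift]; exact le_max_right _ _
    show #(Iio a → Iio b) ≤ _
    calc #(Iio a → Iio b) = #(Iio b) ^ #(Iio a) := by simp
      _ ≤ (2 ^ (Cardinal.lift.{1} c)) ^ #(Iio a) :=
          power_le_power_right (hb.trans (cantor _).le)
      _ ≤ (2 ^ (Cardinal.lift.{1} c)) ^ (Cardinal.lift.{1} c) :=
          power_le_power_left (power_ne_zero _ two_ne_zero) ha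
      _ = 2 ^ (Cardinal.lift.{1} c) := by
          rw [← power_mul, mul_eq_self hcinf]
      _ = Cardinal.lift.{1} (2 ^ c) := by simp
      _ ≤ Cardinal.lift.{1} lam := by
          rw [Cardinal.lift_le]
          calc (2 : Cardinal) ^ c ≤ 2 ^< lam := le_powerlt 2 hclt
            _ = lam := hpow
  calc Cardinal.sum (fun p : Iio lam.ord × Iio lam.ord => #(Iio p.1 → Iio p.2))
      ≤ Cardinal.sum (fun _ : Iio lam.ord × Iio lam.ord => Cardinal.lift.{1} lam) :=
        Cardinal.sum_le_sum _ _ hfib
    _ = #(Iio lam.ord × Iio lam.ord) * Cardinal.lift.{1} lam := by simp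
    _ = #(Iio lam.ord) := by
        rw [mk_prod, Cardinal.lift_id, mk_Iio_lam, mul_eq_self hinf, mul_eq_self hinf]

/-! ### Borel sets -/

section Borel

variable {X : Type 1} [TopologicalSpace X]

theorem isBorel_iUnion {ι : Type 1} (hι : #ι ≤ #(Iio lam.ord)) (A : ι → Set X)
    (hA : ∀ i, IsBorel lam (A i)) : IsBorel lam (⋃ i, A i) := by
  rcases isEmpty_or_nonempty ι with h | h
  · rw [iUnion_of_empty]
    exact IsBorel.ofOpen _ isOpen_empty
  · obtain ⟨e⟩ := hι
    have hsurj := Function.invFun_surjective e.injective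
    have : (⋃ i, A i) = ⋃ j, A (Function.invFun e j) := (hsurj.iUnion_comp A).symm
    rw [this]
    exact IsBorel.iUnion _ fun j => hA _

theorem isBorel_iInter {ι : Type 1} (hι : #ι ≤ #(Iio lam.ord)) (A : ι → Set X)
    (hA : ∀ i, IsBorel lam (A i)) : IsBorel lam (⋂ i, A i) := by
  have : (⋂ i, A i) = (⋃ i, (A i)ᶜ)ᶜ := by rw [compl_iUnion]; simp
  rw [this]
  exact IsBorel.compl _ (isBorel_iUnion hι _ fun i => IsBorel.compl _ (hA i))

end Borel

/-! ### Transfinite limits -/

section Lim

variable {X Y : Type 1} [TopologicalSpace X] [TopologicalSpace Y]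

theorem transfinite (Φ : Ordinal.{0} → X → Y) (h0 : LimClass lam (Φ 0))
    (hs : ∀ o < lam.ord, LimClass lam (Φ o) → LimClass lam (Φ (o + 1)))
    (hl : ∀ o ≤ lam.ord, IsSuccLimit o → ∀ x, ∃ b < o, ∀ c, b ≤ c → c < o → Φ c x = Φ o x) :
    ∀ o ≤ lam.ord, LimClass lam (Φ o) := by
  intro o
  induction o using Ordinal.limitRecOn with
  | zero => exact fun _ => h0
  | add_one o ih =>
    intro ho
    have ho' : o < lam.ord := (Order.lt_add_one_iff.2 le_rfl).trans_le ho
    exact hs o ho' (ih ho'.le)
  | limit o hlim ih =>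
    intro ho
    obtain ⟨f, hf⟩ := Ordinal.exists_isFundamentalSeq (o := o) rfl
    have hκ : (o.cof).IsRegular := Cardinal.isRegular_cof hlim
    have hle : o.cof ≤ lam := by
      refine (Ordinal.cof_le_card o).trans ?_
      rw [← Cardinal.card_ord lam]
      exact Ordinal.card_le_card ho
    refine LimClass.lim o.cof hκ hle (fun i => Φ (f i)) (Φ o)
      (fun i => ih _ (f i).2 ((f i).2.le.trans ho)) fun x => ?_
    obtain ⟨b, hb, hbc⟩ := hl o ho hlim x
    obtain ⟨_, ⟨i0, rfl⟩, hi0⟩ := hf.isCofinal_range ⟨b, hb⟩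
    refine (tendsto_const_nhds (x := Φ o x)).congr' ?_
    filter_upwards [eventually_ge_atTop i0] with i hi
    refine (hbc _ ?_ (f i).2).symm
    have h1 : (⟨b, hb⟩ : Iio o) ≤ f i := hi0.trans (hf.strictMono.monotone hi)
    exact h1

open Classical in
/-- The function which is `g` on `A` and `h` off `A`. -/
noncomputable def pw (A : Set X) (g h : X → Y) : X → Y := fun x => if x ∈ A then g x else h x

variable (Y) in
/-- The sets along which members of the class can be pasted. -/
def Good (lam : Cardinal.{0}) (A : Set X) : Prop :=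
  ∀ g h : X → Y, LimClass lam g → LimClass lam h → LimClass lam (pw A g h)

omit [TopologicalSpace X] [TopologicalSpace Y] in
theorem pw_compl (A : Set X) (g h : X → Y) : pw Aᶜ g h = pw A h g := by
  funext x
  unfold pw
  by_cases hx : x ∈ A <;> simp [hx]

theorem good_compl {A : Set X} (hA : Good Y lam A) : Good Y lam Aᶜ := by
  intro g h hg hh
  rw [pw_compl]
  exact hA h g hh hg

theorem good_clopen {A : Set X} (hA : IsClopen A) : Good Y lam A := by
  intro g h hg hh
  induction hg with
  | ofContinuous g hg =>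
    induction hh with
    | ofContinuous h hh =>
      refine LimClass.ofContinuous _ ?_
      classical
      unfold pw
      refine continuous_if ?_ hg.continuousOn hh.continuousOn
      intro a ha
      have : frontier {x | x ∈ A} = ∅ := hA.frontier_eq
      rw [this] at ha
      exact absurd ha (Set.notMem_empty _)
    | lim κ hκ hle F f _ hF ih =>
      refine LimClass.lim κ hκ hle (fun i => pw A g (F i)) _ ih fun x => ?_
      unfold pw
      by_cases hx : x ∈ A
      · simp only [hx, if_true]; exact tendsto_const_nhds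
      · simp only [hx, if_false]; exact hF x
  | lim κ hκ hle F f _ hF ih =>
    refine LimClass.lim κ hκ hle (fun i => pw A (F i) h) _ ih fun x => ?_
    unfold pw
    by_cases hx : x ∈ A
    · simp only [hx, if_true]; exact hF x
    · simp only [hx, if_false]; exact tendsto_const_nhds

theorem good_iUnion (A : Iio lam.ord → Set X) (hA : ∀ i, Good Y lam (A i)) :
    Good Y lam (⋃ i, A i) := by
  intro g h hg hh
  let Φ : Ordinal.{0} → X → Y := fun o => pw {x | ∃ i : Iio lam.ord, (i : Ordinal) < o ∧ x ∈ A i} g h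
  have key := transfinite (lam := lam) Φ ?_ ?_ ?_ lam.ord le_rfl
  · have : Φ lam.ord = pw (⋃ i, A i) g h := by
      have : {x | ∃ i : Iio lam.ord, (i : Ordinal) < lam.ord ∧ x ∈ A i} = ⋃ i, A i := by
        ext x
        simp only [mem_iUnion]
        exact ⟨fun ⟨i, _, hx⟩ => ⟨i, hx⟩, fun ⟨i, hx⟩ => ⟨i, i.2, hx⟩⟩
      show pw _ g h = _
      rw [this]
    rwa [this] at key
  · have : Φ 0 = h := by
      funext x
      show pw _ g h x = h x
      unfold pw
      rw [if_neg]
      rintro ⟨i, hi, _⟩
      exact absurd hi (not_lt.2 (zero_le))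
    rwa [this]
  · intro o ho hΦ
    have : Φ (o + 1) = pw (A ⟨o, ho⟩) g (Φ o) := by
      funext x
      show pw _ g h x = _
      unfold pw
      by_cases hx : x ∈ A ⟨o, ho⟩
      · rw [if_pos hx, if_pos]
        exact ⟨⟨o, ho⟩, Order.lt_add_one_iff.2 le_rfl, hx⟩
      · rw [if_neg hx]
        show _ = pw _ g h x
        unfold pw
        have hiff : x ∈ {x | ∃ i : Iio lam.ord, (i : Ordinal) < o + 1 ∧ x ∈ A i} ↔
            x ∈ {x | ∃ i : Iio lam.ord, (i : Ordinal) < o ∧ x ∈ A i} := by
          constructor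
          · rintro ⟨i, hi, hxi⟩
            rcases (Order.lt_add_one_iff.1 hi).lt_or_eq with h' | h'
            · exact ⟨i, h', hxi⟩
            · exact absurd (by rwa [show i = ⟨o, ho⟩ from Subtype.ext h'] at hxi) hx
          · rintro ⟨i, hi, hxi⟩
            exact ⟨i, hi.trans (Order.lt_add_one_iff.2 le_rfl), hxi⟩
        by_cases h' : x ∈ {x | ∃ i : Iio lam.ord, (i : Ordinal) < o ∧ x ∈ A i}
        · rw [if_pos h', if_pos (hiff.2 h')]
        · rw [if_neg h', if_neg (fun h'' => h' (hiff.1 h''))]
    rw [this]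
    exact hA _ g _ hg hΦ
  · intro o ho hlim x
    by_cases hx : ∃ i : Iio lam.ord, (i : Ordinal) < o ∧ x ∈ A i
    · obtain ⟨i, hi, hxi⟩ := hx
      refine ⟨i + 1, hlim.add_one_lt hi, fun c hc hco => ?_⟩
      have h1 : Φ c x = g x := if_pos ⟨i, (Order.lt_add_one_iff.2 le_rfl).trans_le hc, hxi⟩
      have h2 : Φ o x = g x := if_pos ⟨i, hi, hxi⟩
      rw [h1, h2]
    · refine ⟨0, hlim.bot_lt, fun c _ hco => ?_⟩
      have h1 : Φ c x = h x := if_neg (by rintro ⟨i, hi, hxi⟩; exact hx ⟨i, hi.trans hco, hxi⟩)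
      have h2 : Φ o x = h x := if_neg hx
      rw [h1, h2]

end Lim

/-! ### Subspaces of `^λ λ` -/

/-- An enumeration of the basic open sets of `^λ λ` in type `λ`. -/
theorem exists_enum (hreg : lam.IsRegular) (hunc : ℵ₀ < lam)
    (hpow : (2 : Cardinal) ^< lam = lam) : ∃ d : Iio lam.ord → Set (GB lam),
      (∀ i, ∃ (x : GB lam) (a : Iio lam.ord), d i = N x a) ∧
      ∀ (x : GB lam) (a : Iio lam.ord), ∃ i, d i = N x a := by
  obtain ⟨e⟩ := card_basic hreg hunc hpow
  have : Nonempty {U : Set (GB lam) | ∃ (x : GB lam) (a : Iio lam.ord), U = N x a} :=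
    ⟨⟨N (fun _ => ⟨0, hreg.ord_pos⟩) ⟨0, hreg.ord_pos⟩, _, _, rfl⟩⟩
  have hsurj := Function.invFun_surjective e.injective
  refine ⟨fun i => (Function.invFun (⇑e) i).1, fun i => (Function.invFun (⇑e) i).2,
    fun x a => ?_⟩
  obtain ⟨i, hi⟩ := hsurj ⟨N x a, x, a, rfl⟩
  exact ⟨i, by simp only [hi]⟩

/-- Every open subset of a subspace of `^λ λ` is the union of `λ` many clopen subsets. -/
theorem open_eq_iUnion (hreg : lam.IsRegular) (hunc : ℵ₀ < lam)
    (hpow : (2 : Cardinal) ^< lam = lam) {X : Set (GB lam)} {U : Set X} (hU : IsOpen U) :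
    ∃ C : Iio lam.ord → Set X, (∀ i, IsClopen (C i)) ∧ U = ⋃ i, C i := by
  classical
  obtain ⟨d, hd, hsurj⟩ := exists_enum hreg hunc hpow
  let B : Iio lam.ord → Set X := fun i => (Subtype.val ⁻¹' (d i))
  have hB : ∀ i, IsClopen (B i) := by
    intro i
    obtain ⟨x, a, hxa⟩ := hd i
    have : B i = Subtype.val ⁻¹' (N x a) := by
      show Subtype.val ⁻¹' _ = _
      rw [hxa]
    rw [this]
    exact ⟨(isClosed_N x a).preimage continuous_subtype_val,
      (isOpen_N x a).preimage continuous_subtype_val⟩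
  refine ⟨fun i => if B i ⊆ U then B i else ∅, fun i => ?_, ?_⟩
  · by_cases h : B i ⊆ U
    · simp only [h, if_true]; exact hB i
    · simp only [h, if_false]; exact isClopen_empty
  · ext x
    simp only [mem_iUnion]
    constructor
    · intro hx
      obtain ⟨V, hV, hVU⟩ := isOpen_induced_iff.1 hU
      have hxV : (x : GB lam) ∈ V := by
        rw [← hVU] at hx
        exact hx
      obtain ⟨_, ⟨w, a, rfl⟩, hxW, hWV⟩ := (basis hreg.ord_pos).exists_subset_of_mem_open hxV hV
      obtain ⟨i, hi⟩ := hsurj w a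
      have hBi : B i = Subtype.val ⁻¹' (N w a) := by
        show Subtype.val ⁻¹' _ = _
        rw [hi]
      have hsub : B i ⊆ U := by
        rw [hBi, ← hVU]
        exact preimage_mono hWV
      refine ⟨i, ?_⟩
      simp only [hsub, if_true]
      rw [hBi]
      exact hxW
    · rintro ⟨i, hi⟩
      by_cases h : B i ⊆ U
      · simp only [h, if_true] at hi; exact h hi
      · simp only [h, if_false] at hi; exact absurd hi (Set.notMem_empty _)

theorem good_of_isBorel (hreg : lam.IsRegular) (hunc : ℵ₀ < lam)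
    (hpow : (2 : Cardinal) ^< lam = lam) {X : Set (GB lam)} {Y : Type 1} [TopologicalSpace Y]
    {A : Set X} (hA : IsBorel lam A) : Good Y lam A := by
  induction hA with
  | ofOpen U hU =>
    obtain ⟨C, hC, hUC⟩ := open_eq_iUnion hreg hunc hpow hU
    rw [hUC]
    exact good_iUnion C fun i => good_clopen (hC i)
  | compl A _ ih => exact good_compl ih
  | iUnion A _ ih => exact good_iUnion A ih

theorem borelMeasurable_of_limClass (hreg : lam.IsRegular) (hunc : ℵ₀ < lam)
    (hpow : (2 : Cardinal) ^< lam = lam) {X : Type 1} [TopologicalSpace X] {Y : Set (GB lam)}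
    {f : X → Y} (hf : LimClass lam f) : BorelMeasurable lam f := by
  induction hf with
  | ofContinuous f hf => exact fun U hU => IsBorel.ofOpen _ (hU.preimage hf)
  | lim κ hκ hle F f _ hF ih =>
    intro U hU
    obtain ⟨C, hC, hUC⟩ := open_eq_iUnion hreg hunc hpow hU
    rw [hUC, preimage_iUnion]
    refine IsBorel.iUnion _ fun i => ?_
    have hcard : #(Iio κ.ord) ≤ #(Iio lam.ord) := by
      rw [mk_Iio_lam, mk_Iio_lam, Cardinal.lift_le]
      exact hle
    have : Nonempty (Iio κ.ord) := ⟨⟨0, hκ.ord_pos⟩⟩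
    have : f ⁻¹' C i = ⋃ j : Iio κ.ord, ⋂ k : Ici j, F k ⁻¹' C i := by
      ext x
      simp only [mem_preimage, mem_iUnion, mem_iInter]
      constructor
      · intro hx
        have h1 := (hF x).eventually ((hC i).isOpen.mem_nhds hx)
        obtain ⟨j, hj⟩ := eventually_atTop.1 h1
        exact ⟨j, fun k => hj k k.2⟩
      · rintro ⟨j, hj⟩
        refine (hC i).isClosed.mem_of_tendsto (hF x) ?_
        filter_upwards [eventually_ge_atTop j] with k hk
        exact hj ⟨k, hk⟩
    rw [this]
    refine isBorel_iUnion hcard _ fun j => ?_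
    refine isBorel_iInter ((mk_subtype_le _).trans hcard) _ fun k => ?_
    exact ih k (C i) (hC i).isOpen

theorem limClass_of_borelMeasurable (hreg : lam.IsRegular) (hunc : ℵ₀ < lam)
    (hpow : (2 : Cardinal) ^< lam = lam) {X Y : Set (GB lam)}
    {f : X → Y} (hf : BorelMeasurable lam f) : LimClass lam f := by
  classical
  rcases isEmpty_or_nonempty X with hX | ⟨⟨x0⟩⟩
  · exact LimClass.ofContinuous _ (continuous_of_const fun x => isEmptyElim x)
  have : Nonempty Y := ⟨f x0⟩
  obtain ⟨E, hE, hsurj⟩ := exists_enum hreg hunc hpow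
  -- representatives of the classes of agreement below `a`
  let rep : Iio lam.ord → Set (GB lam) → Y := fun a => Function.invFun fun u : Y => N (u : GB lam) a
  have hrep : ∀ (a : Iio lam.ord) (u : Y), N (rep a (N (u : GB lam) a) : GB lam) a = N (u : GB lam) a :=
    fun a u => Function.invFun_eq (f := fun u : Y => N (u : GB lam) a) ⟨u, rfl⟩
  refine LimClass.lim lam hreg le_rfl (fun a x => rep a (N (f x : GB lam) a)) f (fun a => ?_)
    fun x => ?_
  · -- the function `x ↦ rep a (f x ↾ a)` takes at most `λ` values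
    let A : Iio lam.ord → Set X := fun i => {x | N (f x : GB lam) a = E i}
    have hA : ∀ i, IsBorel lam (A i) := by
      intro i
      by_cases h : ∃ y : GB lam, E i = N y a
      · obtain ⟨y, hy⟩ := h
        have : A i = f ⁻¹' (Subtype.val ⁻¹' N y a) := by
          ext x
          show N (f x : GB lam) a = E i ↔ (f x : GB lam) ∈ N y a
          rw [hy]
          constructor
          · intro h
            rw [← h]
            exact mem_N_self _ _
          · intro h
            exact N_eq h
        rw [this]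
        exact hf _ ((isOpen_N y a).preimage continuous_subtype_val)
      · have : A i = ∅ := by
          ext x
          simp only [mem_empty_iff_false, iff_false]
          intro hx
          exact h ⟨_, (show N (f x : GB lam) a = E i from hx).symm⟩
        rw [this]
        exact IsBorel.ofOpen _ isOpen_empty
    have hcov : ∀ x, ∃ i, x ∈ A i := by
      intro x
      obtain ⟨i, hi⟩ := hsurj (f x) a
      exact ⟨i, hi.symm⟩
    let g : X → Y := fun x => rep a (N (f x : GB lam) a)
    let y0 : Y := f x0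
    let Φ : Ordinal.{0} → X → Y :=
      fun o => pw {x | ∃ i : Iio lam.ord, (i : Ordinal) < o ∧ x ∈ A i} g (fun _ => y0)
    have key := transfinite (lam := lam) Φ ?_ ?_ ?_ lam.ord le_rfl
    · have : Φ lam.ord = g := by
        funext x
        obtain ⟨i, hi⟩ := hcov x
        exact if_pos ⟨i, i.2, hi⟩
      rwa [this] at key
    · have : Φ 0 = fun _ => y0 := by
        funext x
        refine if_neg ?_
        rintro ⟨i, hi, _⟩
        exact absurd hi (not_lt.2 (zero_le))
      rw [this]
      exact LimClass.ofContinuous _ continuous_const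
    · intro o ho hΦ
      have : Φ (o + 1) = pw (A ⟨o, ho⟩) (fun _ => rep a (E ⟨o, ho⟩)) (Φ o) := by
        funext x
        by_cases hx : x ∈ A ⟨o, ho⟩
        · have h1 : Φ (o + 1) x = g x :=
            if_pos ⟨⟨o, ho⟩, Order.lt_add_one_iff.2 le_rfl, hx⟩
          have h2 : pw (A ⟨o, ho⟩) (fun _ => rep a (E ⟨o, ho⟩)) (Φ o) x = rep a (E ⟨o, ho⟩) :=
            if_pos hx
          rw [h1, h2]
          show rep a (N (f x : GB lam) a) = _
          rw [show N (f x : GB lam) a = E ⟨o, ho⟩ from hx]
        · have h2 : pw (A ⟨o, ho⟩) (fun _ => rep a (E ⟨o, ho⟩)) (Φ o) x = Φ o x := if_neg hx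
          rw [h2]
          by_cases h' : ∃ i : Iio lam.ord, (i : Ordinal) < o ∧ x ∈ A i
          · have h3 : Φ o x = g x := if_pos h'
            rw [h3]
            obtain ⟨i, hi, hxi⟩ := h'
            exact if_pos ⟨i, hi.trans (Order.lt_add_one_iff.2 le_rfl), hxi⟩
          · have h3 : Φ o x = y0 := if_neg h'
            rw [h3]
            refine if_neg ?_
            rintro ⟨i, hi, hxi⟩
            rcases (Order.lt_add_one_iff.1 hi).lt_or_eq with h'' | h''
            · exact h' ⟨i, h'', hxi⟩
            · exact absurd (by rwa [show i = ⟨o, ho⟩ from Subtype.ext h''] at hxi) hx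
      rw [this]
      exact good_of_isBorel hreg hunc hpow (hA _) _ _
        (LimClass.ofContinuous _ continuous_const) hΦ
    · intro o ho hlim x
      by_cases hx : ∃ i : Iio lam.ord, (i : Ordinal) < o ∧ x ∈ A i
      · obtain ⟨i, hi, hxi⟩ := hx
        refine ⟨i + 1, hlim.add_one_lt hi, fun c hc hco => ?_⟩
        have h1 : Φ c x = g x := if_pos ⟨i, (Order.lt_add_one_iff.2 le_rfl).trans_le hc, hxi⟩
        have h2 : Φ o x = g x := if_pos ⟨i, hi, hxi⟩
        rw [h1, h2]
      · refine ⟨0, hlim.bot_lt, fun c _ hco => ?_⟩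
        have h1 : Φ c x = y0 := if_neg (by rintro ⟨i, hi, hxi⟩; exact hx ⟨i, hi.trans hco, hxi⟩)
        have h2 : Φ o x = y0 := if_neg hx
        rw [h1, h2]
  · -- convergence
    rw [tendsto_nhds]
    intro U hU hxU
    obtain ⟨V, hV, hVU⟩ := isOpen_induced_iff.1 hU
    have hxV : (f x : GB lam) ∈ V := by
      rw [← hVU] at hxU
      exact hxU
    obtain ⟨W, ⟨z, b, rfl⟩, hxW, hWV⟩ := (basis hreg.ord_pos).exists_subset_of_mem_open hxV hV
    have : Nonempty (Iio lam.ord) := ⟨⟨0, hreg.ord_pos⟩⟩
    filter_upwards [eventually_ge_atTop b] with a ha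
    rw [← hVU]
    refine hWV ?_
    rw [← N_eq hxW]
    refine N_anti ha ?_
    rw [← hrep a (f x)]
    exact mem_N_self _ _

/-- Let `λ` be an uncountable regular cardinal with `2^{<λ} = λ` and let `X`, `Y` be subspaces of
`^λ λ`.  The `λ⁺`-Borel measurable functions `X → Y` are exactly the members of the smallest class
that contains all continuous functions and is closed under `κ`-limits for every regular `κ ≤ λ`. -/
theorem result (lam : Cardinal.{0}) (hreg : lam.IsRegular) (hunc : ℵ₀ < lam)
    (hpow : (2 : Cardinal) ^< lam = lam) (X Y : Set (GB lam)) (f : X → Y) :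
    BorelMeasurable lam f ↔ LimClass lam f :=
  ⟨limClass_of_borelMeasurable hreg hunc hpow, borelMeasurable_of_limClass hreg hunc hpow⟩

end Pool.Agent.Results.MP_f4bae3_lc.SequentialLimits
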